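import Pool.Agent.Lib.helper27.SSep

set_option autoImplicit false

namespace Pool.Agent.Results.MP_656a26_gt.FreeNotSSeparable

open TopologicalSpace

/-- The finest group topology on the free group over `[0,1]` making the inclusion of the
generators continuous (in Mathlib's order the infimum is the finest topology). -/
@[reducible] def freeTop : TopologicalSpace (FreeGroup (Set.Icc (0 : ℝ) 1)) :=
  sInf {t | @IsTopologicalGroup _ t _ ∧ @Continuous _ _ _ t FreeGroup.of}

theorem result : ∃ (H : Type) (_ : TopologicalSpace H) (_ : Group H), IsTopologicalGroup H ∧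
    T2Space H ∧ (∀ K : Subgroup H, IsClosed (K : Set H) → SeparableSpace K) ∧
    (letI := freeTop
    ∃ L : Subgroup (FreeGroup (Set.Icc (0 : ℝ) 1) × H),
      IsClosed (L : Set (FreeGroup (Set.Icc (0 : ℝ) 1) × H)) ∧ ¬ SeparableSpace L) := by
  obtain ⟨H, i1, i2, i3, i4, h1, L, h2, h3⟩ := Pool.Agent.Lib.helper27.SSep.core
  refine ⟨H, i1, i2, i3, i4, h1, ?_⟩
  letI := freeTop
  let f : FreeGroup (Set.Icc (0 : ℝ) 1) →* Multiplicative ℝ :=
    FreeGroup.lift fun t => Multiplicative.ofAdd t.1
  have hf : Continuous f := by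
    refine continuous_iff_le_induced.mpr (sInf_le ⟨topologicalGroup_induced f, ?_⟩)
    refine continuous_induced_rng.mpr ?_
    have : f ∘ FreeGroup.of = fun t => Multiplicative.ofAdd t.1 := funext fun t => by simp [f]
    rw [this]
    exact continuous_ofAdd.comp continuous_subtype_val
  have hs : Function.Surjective f := by
    intro y
    refine ⟨FreeGroup.of ⟨1, by simp⟩ ^ ⌊y.toAdd⌋ * FreeGroup.of ⟨Int.fract y.toAdd,
      Int.fract_nonneg _, (Int.fract_lt_one _).le⟩, ?_⟩
    simp [f, ← ofAdd_zsmul, ← ofAdd_add]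
  have hc : Continuous (f.prodMap (MonoidHom.id H)) := hf.prodMap continuous_id
  refine ⟨L.comap (f.prodMap (MonoidHom.id H)), h2.preimage hc, fun h => h3 ?_⟩
  refine DenseRange.separableSpace
    (f := fun p : L.comap (f.prodMap (MonoidHom.id H)) => (⟨_, p.2⟩ : L))
    (Function.Surjective.denseRange fun ⟨⟨a, b⟩, hp⟩ => ?_)
    ((hc.comp continuous_subtype_val).subtype_mk _)
  obtain ⟨c, rfl⟩ := hs a
  exact ⟨⟨(c, b), hp⟩, rfl⟩

end Pool.Agent.Results.MP_656a26_gt.FreeNotSSeparable
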